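import Pool.Agent.K1H95.EO.Stm

set_option autoImplicit false

/-! The group theorem: `t_GRP`. -/

open Cardinal

namespace Pool.Agent.K1H94.EO

open Pool.Agent.K1H95.EO

lemma Bil_add_left {I : Type} (k : I → I → ℚ) (a a' b : I →₀ ℤ) :
    Bil k (a + a') b = Bil k a b + Bil k a' b := by
  unfold Bil
  rw [Finsupp.sum_add_index']
  · intro x
    simp
  · intro x m m'
    rw [← Finsupp.sum_add]
    congr 1
    funext y n
    push_cast
    ring

lemma Bil_add_right {I : Type} (k : I → I → ℚ) (a b b' : I →₀ ℤ) :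
    Bil k a (b + b') = Bil k a b + Bil k a b' := by
  unfold Bil
  rw [← Finsupp.sum_add]
  congr 1
  funext x m
  rw [Finsupp.sum_add_index']
  · intro y
    simp
  · intro y n n'
    push_cast
    ring

/-- the form -/
noncomputable def F {I : Type} (k : I → I → ℚ) : (I →₀ ℤ) →+ (I →₀ ℤ) →+ ℚ :=
  AddMonoidHom.mk' (fun a => AddMonoidHom.mk' (fun b => Bil k a b) (Bil_add_right k a))
    (fun a a' => AddMonoidHom.ext fun b => Bil_add_left k a a' b)

/-- the circle -/
abbrev Circ : Type := ℚ ⧸ AddSubgroup.zmultiples (1 : ℚ)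

/-- the projection -/
abbrev pr : ℚ →+ Circ := QuotientAddGroup.mk' (AddSubgroup.zmultiples (1 : ℚ))

/-- the form modulo `1` -/
noncomputable def f {I : Type} (k : I → I → ℚ) : (I →₀ ℤ) →+ (I →₀ ℤ) →+ Circ :=
  (AddMonoidHom.compHom pr).comp (F k)

lemma f_apply {I : Type} (k : I → I → ℚ) (a b : I →₀ ℤ) : f k a b = pr (Bil k a b) := rfl

lemma pr_half : pr (1 / 2) ≠ 0 := by
  intro h
  rw [QuotientAddGroup.mk'_apply, QuotientAddGroup.eq_zero_iff,
    AddSubgroup.mem_zmultiples_iff] at h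
  obtain ⟨n, hn⟩ := h
  rw [zsmul_one] at hn
  have h1 : (2 * n : ℤ) = 1 := by
    have h2 : (2 * (n : ℚ)) = 1 := by rw [hn]; norm_num
    exact_mod_cast h2
  omega

lemma pr_one : pr 1 = 0 := by
  rw [QuotientAddGroup.mk'_apply, QuotientAddGroup.eq_zero_iff]
  exact AddSubgroup.mem_zmultiples _

/-- dyadic rationals -/
def Dy (r : ℚ) : Prop := ∃ (n : ℕ) (m : ℤ), 2 ^ n * r = m

lemma Dy.add {r s : ℚ} (hr : Dy r) (hs : Dy s) : Dy (r + s) := by
  obtain ⟨n, m, h⟩ := hr
  obtain ⟨n', m', h'⟩ := hs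
  refine ⟨n + n', 2 ^ n' * m + 2 ^ n * m', ?_⟩
  push_cast
  rw [← h, ← h', pow_add]
  ring

lemma Dy_zero : Dy 0 := ⟨0, 0, by simp⟩

lemma Dy_Bil {E I : Type} (c : I → ℕ → E) (a b : I →₀ ℤ) : Dy (Bil (K c) a b) := by
  unfold Bil Finsupp.sum
  refine Finset.sum_induction _ Dy (fun _ _ => Dy.add) Dy_zero fun x _ => ?_
  refine Finset.sum_induction _ Dy (fun _ _ => Dy.add) Dy_zero fun y _ => ?_
  refine ⟨PiNat.firstDiff (c x) (c y), a x * b y, ?_⟩
  unfold K
  have h : (2 : ℚ) ^ PiNat.firstDiff (c x) (c y) * (1 / 2) ^ PiNat.firstDiff (c x) (c y) = 1 := by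
    rw [← mul_pow]
    norm_num
  push_cast
  linear_combination ((a x : ℚ) * (b y : ℚ)) * h

lemma half_mem (D : AddSubgroup ℚ) (h1 : (1 : ℚ) ∈ D) : ∀ (n : ℕ) (q : ℚ), q ∈ D →
    (∃ m : ℤ, 2 ^ n * q = m) → (¬ ∃ m : ℤ, q = m) → (1 / 2 : ℚ) ∈ D := by
  intro n
  induction n with
  | zero =>
    rintro q - ⟨m, hm⟩ h
    exact absurd ⟨m, by simpa using hm⟩ h
  | succ n ih =>
    rintro q hq ⟨m, hm⟩ h
    by_cases h2 : ∃ k : ℤ, 2 * q = k
    · obtain ⟨k, hk⟩ := h2
      rcases Int.even_or_odd' k with ⟨j, hj | hj⟩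
      · exfalso
        refine h ⟨j, ?_⟩
        rw [hj] at hk
        push_cast at hk
        linarith
      · have e : (1 / 2 : ℚ) = q - j • (1 : ℚ) := by
          rw [hj] at hk
          push_cast at hk
          rw [zsmul_one]
          linarith
        rw [e]
        exact D.sub_mem hq (D.zsmul_mem h1 j)
    · refine ih (2 * q) ?_ ⟨m, ?_⟩ h2
      · rw [two_mul]
        exact D.add_mem hq hq
      · rw [← hm, pow_succ]
        ring

theorem t_GRP (hC : S_COMB) (hT : S_TREE) : S_GRP := by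
  intro κ₀
  obtain ⟨κ, E, I, _, c, hκ₀, hω, hE, hc, hI, hIic⟩ := hT κ₀
  refine ⟨κ, hκ₀, hω, ?_⟩
  set kk : I → I → ℚ := fun x y => if x < y then K c x y else 0 with hkk
  refine ⟨Ext (f kk), inferInstance, ⟨0, pr (1 / 2)⟩, ?_, ?_, ?_, ?_⟩
  · intro g
    ext
    · simp
    · simp [add_comm]
  · intro h
    exact pr_half (congrArg Ext.c h)
  · refine hI.trans_le (Cardinal.mk_le_of_injective
      (f := fun i : I => (⟨Finsupp.single i 1, 0⟩ : Ext (f kk))) fun i j h => ?_)
    have h1 : Finsupp.single i (1 : ℤ) = Finsupp.single j 1 := congrArg Ext.v h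
    exact Finsupp.single_left_injective one_ne_zero h1
  · intro H hz
    by_contra hcard
    rw [not_le] at hcard
    apply hz
    -- the projection of `H`
    let A0 : AddSubgroup (I →₀ ℤ) :=
      { carrier := {a | ∃ h ∈ H, h.v = a}
        zero_mem' := ⟨1, H.one_mem, rfl⟩
        add_mem' := by
          rintro _ _ ⟨h, hh, rfl⟩ ⟨g, hg, rfl⟩
          exact ⟨h * g, H.mul_mem hh hg, rfl⟩
        neg_mem' := by
          rintro _ ⟨h, hh, rfl⟩
          exact ⟨h⁻¹, H.inv_mem hh, rfl⟩ }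
    have hA0 : κ < #A0 := by
      by_contra hle
      rw [not_lt] at hle
      have h1 : #H ≤ #(A0 × Circ) := by
        refine Cardinal.mk_le_of_injective
          (f := fun h : H => ((⟨h.1.v, h.1, h.2, rfl⟩ : A0), h.1.c)) fun g h e => ?_
        have e1 := congrArg Prod.fst e
        have e2 := congrArg Prod.snd e
        have e3 : g.1.v = h.1.v := congrArg Subtype.val e1
        exact Subtype.ext (Ext.ext e3 e2)
      haveI : Countable Circ :=
        Function.Surjective.countable (f := pr) (QuotientAddGroup.mk'_surjective _)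
      have h2 : #Circ ≤ κ := (Cardinal.mk_le_aleph0 (α := Circ)).trans hω
      have h3 : #(A0 × Circ) ≤ κ := by
        rw [Cardinal.mk_prod, Cardinal.lift_id, Cardinal.lift_id]
        calc #A0 * #Circ ≤ κ * κ := mul_le_mul' hle h2
          _ = κ := Cardinal.mul_eq_self hω
      exact absurd hcard (not_lt.2 (h1.trans h3))
    obtain ⟨a, ⟨h, hh, hha⟩, b, ⟨g, hg, hgb⟩, hab, hq1, hq2⟩ := hC κ E I c hω hE hc hIic A0 hA0
    have e1 : Bil kk a b = Bil (K c) a b := by
      unfold Bil
      refine Finsupp.sum_congr fun x hx => Finsupp.sum_congr fun y hy => ?_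
      simp only [hkk]
      rw [if_pos (hab x hx y hy)]
    have e2 : Bil kk b a = 0 := by
      unfold Bil Finsupp.sum
      refine Finset.sum_eq_zero fun x hx => Finset.sum_eq_zero fun y hy => ?_
      simp only [hkk]
      rw [if_neg (not_lt.2 (hab y hy x hx).le), mul_zero]
    set q : ℚ := Bil (K c) a b with hqd
    have hw : (⟨0, pr q⟩ : Ext (f kk)) ∈ H := by
      have h1 : (h * g) * (g * h)⁻¹ ∈ H := H.mul_mem (H.mul_mem hh hg) (H.inv_mem (H.mul_mem hg hh))
      have h2 : (h * g) * (g * h)⁻¹ = (⟨0, pr q⟩ : Ext (f kk)) := by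
        apply Ext.ext
        · simp only [mul_v, inv_v, hha, hgb]
          abel
        · simp only [mul_v, mul_c, inv_v, inv_c, hha, hgb, add_comm b a, map_neg]
          rw [f_apply kk a b, f_apply kk b a, e1, e2, map_zero]
          abel
      rw [← h2]
      exact h1
    let D : AddSubgroup ℚ :=
      { carrier := {r | (⟨0, pr r⟩ : Ext (f kk)) ∈ H}
        zero_mem' := by
          show (⟨0, pr 0⟩ : Ext (f kk)) ∈ H
          have : (⟨0, pr 0⟩ : Ext (f kk)) = 1 := by
            apply Ext.ext <;> simp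
          rw [this]
          exact H.one_mem
        add_mem' := by
          intro r s hr hs
          show (⟨0, pr (r + s)⟩ : Ext (f kk)) ∈ H
          have : (⟨0, pr (r + s)⟩ : Ext (f kk)) = ⟨0, pr r⟩ * ⟨0, pr s⟩ := by
            apply Ext.ext
            · simp
            · simp only [mul_c, map_add, map_zero, add_zero]
          rw [this]
          exact H.mul_mem hr hs
        neg_mem' := by
          intro r hr
          show (⟨0, pr (-r)⟩ : Ext (f kk)) ∈ H
          have : (⟨0, pr (-r)⟩ : Ext (f kk)) = (⟨0, pr r⟩)⁻¹ := by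
            apply Ext.ext
            · simp
            · simp only [inv_c, map_neg, map_zero, add_zero]
          rw [this]
          exact H.inv_mem hr }
    have hone : (1 : ℚ) ∈ D := by
      show (⟨0, pr 1⟩ : Ext (f kk)) ∈ H
      have : (⟨0, pr 1⟩ : Ext (f kk)) = 1 := by
        apply Ext.ext
        · simp
        · exact pr_one
      rw [this]
      exact H.one_mem
    obtain ⟨n, m, hnm⟩ := Dy_Bil c a b
    refine half_mem D hone n q hw ⟨m, hnm⟩ ?_
    rintro ⟨j, hj⟩
    rw [hj] at hq1 hq2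
    have h3 : (-1 : ℤ) < j := by exact_mod_cast hq1
    have h4 : j < (0 : ℤ) := by exact_mod_cast hq2
    omega

end Pool.Agent.K1H94.EO
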